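import Mathlib
import Pool.Agent.V11176.Content
import Pool.Agent.V11176.Gessel
import Pool.Agent.V11176.MinSymE
import Pool.Agent.V11176.Shapes2

/-!
# MP_8fe44f_co: minimal symmetric permutation sets are Schur-positive

Every symmetric set `S ⊆ S_n` (`n ≥ 2`) with `|S| = n - 1` which contains neither the identity nor
the reversal is Schur-positive; in fact `Q(S)` is a single Schur function.
`[n]` is modelled by `Fin n`, variables are indexed by `ℕ`, descents are `1`-based.
-/

namespace Pool.Agent.Results.MP_8fe44f_co.MinimalSymmetric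

open Finset V11176.Content V11176.Gessel V11176.MinSym V11176.Shapes

/-- Descent set (1-based): `j ∈ des π` iff `1 ≤ j ≤ n - 1` and `π(j) > π(j+1)`, where the
`j`-th letter of `π` is `π ⟨j - 1, _⟩`. -/
def des {n : ℕ} (π : Equiv.Perm (Fin n)) : Finset ℕ :=
  (Icc 1 (n - 1)).filter (fun j => ∃ (h : j < n) (_ : 1 ≤ j), π ⟨j, h⟩ < π ⟨j - 1, by omega⟩)

/-- Gessel's fundamental quasisymmetric function `F_{n,D}`: the coefficient of `x^e` is the number
of weakly increasing sequences `i_1 ≤ … ≤ i_n` with `i_j < i_{j+1}` for `j ∈ D` and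
`x_{i_1} ⋯ x_{i_n} = x^e`. -/
noncomputable def fundF (n : ℕ) (D : Finset ℕ) : MvPowerSeries ℕ ℤ :=
  fun e => (Nat.card {i : Fin n → ℕ // Monotone i ∧
    (∀ j ∈ D, ∀ (h : j < n) (_ : 1 ≤ j), i ⟨j - 1, by omega⟩ < i ⟨j, h⟩) ∧
    ∑ k, Finsupp.single (i k) 1 = e} : ℤ)

/-- `Q(S)`, the quasisymmetric generating function of the descent sets. -/
noncomputable def Q {n : ℕ} (S : Finset (Equiv.Perm (Fin n))) : MvPowerSeries ℕ ℤ :=
  ∑ π ∈ S, fundF n (des π)

/-- Invariance under all permutations of the variables. -/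
def IsSymmetric (f : MvPowerSeries ℕ ℤ) : Prop :=
  ∀ (σ : Equiv.Perm ℕ) (e : ℕ →₀ ℕ),
    MvPowerSeries.coeff (e.mapDomain σ) f = MvPowerSeries.coeff e f

/-- The Schur function `s_μ`: the generating function of semistandard tableaux of shape `μ`. -/
noncomputable def schur (μ : YoungDiagram) : MvPowerSeries ℕ ℤ :=
  fun e => (Nat.card {T : SemistandardYoungTableau μ //
    ∑ c ∈ μ.cells, Finsupp.single (T c.1 c.2) 1 = e} : ℤ)

/-- `f` is a combination of Schur functions `s_μ`, `|μ| = n`, with nonnegative coefficients. -/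
def SchurPositive (n : ℕ) (f : MvPowerSeries ℕ ℤ) : Prop :=
  ∃ a : YoungDiagram →₀ ℕ, (∀ μ ∈ a.support, μ.card = n) ∧
    f = ∑ μ ∈ a.support, (a μ : ℤ) • schur μ

/-! ### Descent sets -/

theorem des_sub {n : ℕ} (π : Equiv.Perm (Fin n)) : des π ⊆ Icc 1 (n - 1) := filter_subset _ _

theorem mem_des {n : ℕ} (π : Equiv.Perm (Fin n)) (j : ℕ) (h1 : 1 ≤ j) (h : j < n) :
    j ∈ des π ↔ π ⟨j, h⟩ < π ⟨j - 1, by omega⟩ := by
  rw [des, mem_filter, mem_Icc]
  constructor
  · rintro ⟨_, _, _, h2⟩; exact h2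
  · intro h2; exact ⟨⟨h1, by omega⟩, h, h1, h2⟩

theorem des_empty {n : ℕ} (π : Equiv.Perm (Fin n)) (h : des π = ∅) : π = 1 := by
  rcases n with _ | n
  · exact Subsingleton.elim _ _
  rw [← Equiv.Perm.monotone_iff, Fin.monotone_iff_le_succ]
  intro i
  by_contra hc
  rw [not_le] at hc
  have hmem : (i : ℕ) + 1 ∈ des π := by
    rw [mem_des π _ (by omega) (by have := i.2; omega)]
    exact hc
  rw [h] at hmem
  simp at hmem

theorem des_full {n : ℕ} (π : Equiv.Perm (Fin n)) (h : des π = Icc 1 (n - 1)) :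
    π = Fin.revPerm := by
  rcases n with _ | n
  · exact Subsingleton.elim _ _
  have hanti : Antitone π := by
    rw [Fin.antitone_iff_succ_le]
    intro i
    have hmem : (i : ℕ) + 1 ∈ des π := by
      rw [h, mem_Icc]; have := i.2; omega
    rw [mem_des π _ (by omega) (by have := i.2; omega)] at hmem
    exact hmem.le
  have hm : Monotone (Fin.revPerm.trans π : Equiv.Perm (Fin (n + 1))) := by
    intro a b hab
    simp only [Equiv.trans_apply, Fin.revPerm_apply]
    exact hanti (Fin.rev_le_rev.2 hab)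
  have h3 := (Equiv.Perm.monotone_iff _).1 hm
  ext a : 1
  have h4 := congrArg (fun σ : Equiv.Perm (Fin (n + 1)) => σ (Fin.rev a)) h3
  simpa using h4

/-! ### Coefficients -/

theorem fund_coeff {n : ℕ} (D : Finset ℕ) (hD : D ⊆ Icc 1 (n - 1)) (r : Fin n → ℕ)
    (hr : Monotone r) (e : ℕ →₀ ℕ) (he : ∑ k, Finsupp.single (r k) 1 = e) :
    MvPowerSeries.coeff e (fundF n D) = if D ⊆ asc r then 1 else 0 := by
  rw [MvPowerSeries.coeff_apply]
  unfold fundF
  have hiff : (∀ j ∈ D, ∀ (h : j < n) (_ : 1 ≤ j), r ⟨j - 1, by omega⟩ < r ⟨j, h⟩) ↔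
      D ⊆ asc r := by
    constructor
    · intro h j hj
      have hj' := mem_Icc.1 (hD hj)
      rw [mem_asc r j hj'.1 (by omega)]
      exact h j hj (by omega) hj'.1
    · intro h j hj hjn hj1
      have := h hj
      rwa [mem_asc r j hj1 hjn] at this
  split_ifs with h
  · have : Nat.card {i : Fin n → ℕ // Monotone i ∧
        (∀ j ∈ D, ∀ (h : j < n) (_ : 1 ≤ j), i ⟨j - 1, by omega⟩ < i ⟨j, h⟩) ∧
        ∑ k, Finsupp.single (i k) 1 = e} = 1 := by
      rw [Nat.card_eq_one_iff_unique]
      constructor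
      · constructor
        rintro ⟨i, hi⟩ ⟨i', hi'⟩
        apply Subtype.ext
        exact content_unique i i' hi.1 hi'.1 (hi.2.2.trans hi'.2.2.symm)
      · exact ⟨⟨r, hr, hiff.2 h, he⟩⟩
    rw [this]; rfl
  · have : Nat.card {i : Fin n → ℕ // Monotone i ∧
        (∀ j ∈ D, ∀ (h : j < n) (_ : 1 ≤ j), i ⟨j - 1, by omega⟩ < i ⟨j, h⟩) ∧
        ∑ k, Finsupp.single (i k) 1 = e} = 0 := by
      rw [Nat.card_eq_zero]
      left
      constructor
      rintro ⟨i, hi⟩
      have : i = r := content_unique i r hi.1 hr (hi.2.2.trans he.symm)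
      subst this
      exact h (hiff.1 hi.2.1)
    rw [this]; rfl

theorem Q_coeff {n : ℕ} (S : Finset (Equiv.Perm (Fin n))) (r : Fin n → ℕ)
    (hr : Monotone r) (e : ℕ →₀ ℕ) (he : ∑ k, Finsupp.single (r k) 1 = e) :
    MvPowerSeries.coeff e (Q S) = (#{π ∈ S | des π ⊆ asc r} : ℤ) := by
  rw [Q, map_sum, sum_congr rfl (fun π _ => fund_coeff (des π) (des_sub π) r hr e he),
    card_filter]
  push_cast
  rfl

theorem Q_coeff_ne {n : ℕ} (S : Finset (Equiv.Perm (Fin n))) (e : ℕ →₀ ℕ)
    (he : ∑ x ∈ e.support, e x ≠ n) : MvPowerSeries.coeff e (Q S) = 0 := by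
  rw [Q, map_sum]
  refine sum_eq_zero fun π _ => ?_
  rw [MvPowerSeries.coeff_apply]
  unfold fundF
  have : Nat.card {i : Fin n → ℕ // Monotone i ∧
        (∀ j ∈ des π, ∀ (h : j < n) (_ : 1 ≤ j), i ⟨j - 1, by omega⟩ < i ⟨j, h⟩) ∧
        ∑ k, Finsupp.single (i k) 1 = e} = 0 := by
    rw [Nat.card_eq_zero]
    left
    constructor
    rintro ⟨i, hi⟩
    exact he (content_degree i e hi.2.2)
  rw [this]; rfl

theorem schur_coeff_ne {n : ℕ} (μ : YoungDiagram) (hμ : μ.cells.card = n) (e : ℕ →₀ ℕ)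
    (he : ∑ x ∈ e.support, e x ≠ n) : MvPowerSeries.coeff e (schur μ) = 0 := by
  rw [MvPowerSeries.coeff_apply]
  unfold schur
  have : Nat.card {T : SemistandardYoungTableau μ //
      ∑ c ∈ μ.cells, Finsupp.single (T c.1 c.2) 1 = e} = 0 := by
    rw [Nat.card_eq_zero]
    left
    constructor
    rintro ⟨T, hT⟩
    rw [content_cells T (μ.cells.equivFinOfCardEq hμ).symm] at hT
    exact he (content_degree _ e hT)
  rw [this]; rfl

/-- The key comparison. -/
theorem Q_eq_schur {n : ℕ} (S : Finset (Equiv.Perm (Fin n))) (μ : YoungDiagram)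
    (hμ : μ.cells.card = n) (F : Finset (Finset ℕ)) (h1 : Unif S des F)
    (h2 : Unif (stdSet μ n) desQ F) : Q S = schur μ := by
  apply MvPowerSeries.ext
  intro e
  by_cases he : ∑ x ∈ e.support, e x = n
  · obtain ⟨r, hr, hre⟩ := content_exists e he
    rw [Q_coeff S r hr e hre, unif_card h1 (fun X => X ⊆ asc r)]
    rw [MvPowerSeries.coeff_apply]
    unfold schur
    rw [gessel hμ r hr e hre, unif_card h2 (fun X => X ⊆ asc r)]
  · rw [Q_coeff_ne S e he, schur_coeff_ne μ hμ e he]

/-! ### From symmetry of the power series to symmetry of the family -/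

/-- the exponent `x_0^{l_0} x_1^{l_1} ⋯` -/
noncomputable def eL (l : List ℕ) : ℕ →₀ ℕ :=
  Finsupp.onFinset (range l.length) (fun k => l.getD k 0) (by
    intro k hk
    rw [mem_range]
    by_contra hc
    exact hk (List.getD_eq_default _ _ (not_lt.1 hc)))

theorem eL_apply (l : List ℕ) (k : ℕ) : eL l k = l.getD k 0 := rfl

theorem sum_take (l : List ℕ) (k : ℕ) : ∑ x ∈ range k, l.getD x 0 = (l.take k).sum := by
  induction l generalizing k with
  | nil => simp
  | cons a l ih =>
    rcases k with _ | k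
    · simp
    · rw [sum_range_succ']
      simp only [List.getD_cons_succ, List.getD_cons_zero, List.take_succ_cons, List.sum_cons]
      rw [ih k, add_comm]

theorem eL_degree (l : List ℕ) : ∑ x ∈ (eL l).support, eL l x = l.sum := by
  have h1 : (eL l).support ⊆ range l.length := Finsupp.support_onFinset_subset
  rw [sum_subset h1 (fun x _ hx => Finsupp.notMem_support_iff.1 hx)]
  simp only [eL_apply]
  rw [sum_take, List.take_length]

theorem mem_ps (o : ℕ) (l : List ℕ) (x : ℕ) :
    x ∈ ps o l ↔ ∃ k, 1 ≤ k ∧ k ≤ l.length ∧ x = o + (l.take k).sum := by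
  induction l generalizing o with
  | nil =>
    simp only [ps, notMem_empty, List.length_nil, false_iff, not_exists]
    rintro k ⟨h1, h2, _⟩
    omega
  | cons a l ih =>
    rw [ps, mem_insert, ih]
    constructor
    · rintro (h | ⟨k, h1, h2, h3⟩)
      · exact ⟨1, le_rfl, by simp, by simp [h]⟩
      · refine ⟨k + 1, by omega, by simp [h2], ?_⟩
        rw [List.take_succ_cons, List.sum_cons, h3]; omega
    · rintro ⟨k, h1, h2, h3⟩
      obtain ⟨k, rfl⟩ : ∃ m, k = m + 1 := ⟨k - 1, by omega⟩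
      rw [List.take_succ_cons, List.sum_cons] at h3
      rcases Nat.eq_zero_or_pos k with h4 | h4
      · left; subst h4; simpa using h3
      · right
        refine ⟨k, h4, ?_, by omega⟩
        simp only [List.length_cons] at h2
        omega

theorem asc_eL {n : ℕ} (l : List ℕ) (hs : l.sum = n) (r : Fin n → ℕ)
    (hr : Monotone r) (he : ∑ k, Finsupp.single (r k) 1 = eL l) :
    asc r = ps 0 l ∩ Icc 1 (n - 1) := by
  have hE : ∀ k, #{v | r v < k} = (l.take k).sum := by
    intro k
    rw [← sum_take]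
    have : (univ.filter (fun v => r v < k) : Finset (Fin n)) =
        (range k).biUnion (fun x => univ.filter (fun v => r v = x)) := by
      ext v
      simp
    rw [this, card_biUnion]
    · refine sum_congr rfl fun x _ => ?_
      rw [← content_apply r x, he, eL_apply]
    · intro x _ y _ hxy
      rw [Function.onFun, disjoint_filter]
      intro v _ h1 h2
      exact hxy (h1.symm.trans h2)
  have hlt : ∀ (j : Fin n) (k : ℕ), r j < k ↔ (j : ℕ) < (l.take k).sum := by
    intro j k
    rw [← hE k]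
    exact (Tuple.lt_card_lt_iff_apply_lt_of_monotone hr).symm
  ext j
  rw [mem_inter]
  by_cases hj : j ∈ Icc 1 (n - 1)
  · have hj' := mem_Icc.1 hj
    have hjn : j < n := by omega
    rw [mem_asc r j hj'.1 hjn]
    simp only [hj, and_true]
    rw [mem_ps]
    constructor
    · intro h
      have h1 := (hlt ⟨j - 1, by omega⟩ (r ⟨j, hjn⟩)).1 h
      have h2 : ¬ (j < (l.take (r ⟨j, hjn⟩)).sum) := fun h3 =>
        lt_irrefl _ ((hlt ⟨j, hjn⟩ (r ⟨j, hjn⟩)).2 h3)
      simp only at h1
      have h3 : j = (l.take (r ⟨j, hjn⟩)).sum := by omega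
      by_cases hk : r ⟨j, hjn⟩ ≤ l.length
      · refine ⟨r ⟨j, hjn⟩, ?_, hk, by omega⟩
        by_contra hc
        have : r ⟨j, hjn⟩ = 0 := by omega
        rw [this] at h3
        simp at h3
        omega
      · refine ⟨l.length, ?_, le_rfl, ?_⟩
        · by_contra hc
          have : l = [] := List.length_eq_zero_iff.1 (by omega)
          rw [this] at h3
          simp at h3
          omega
        · rw [List.take_of_length_le (by omega)] at h3
          rw [List.take_length]
          omega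
    · rintro ⟨k, _, _, h3⟩
      have h1 := (hlt ⟨j - 1, by omega⟩ k).2 (by simp only; omega)
      have h2 : ¬ (r ⟨j, hjn⟩ < k) := fun h => by
        have := (hlt ⟨j, hjn⟩ k).1 h
        simp only at this
        omega
      omega
  · constructor
    · intro h; exact absurd (asc_sub _ h) hj
    · intro h; exact absurd h.2 hj

/-- extend a permutation of `ℕ` by fixing `0` and shifting -/
def liftP (σ : Equiv.Perm ℕ) : Equiv.Perm ℕ where
  toFun k := match k with
    | 0 => 0
    | m + 1 => σ m + 1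
  invFun k := match k with
    | 0 => 0
    | m + 1 => σ.symm m + 1
  left_inv k := by cases k <;> simp
  right_inv k := by cases k <;> simp

theorem perm_exists (l l' : List ℕ) (h : l.Perm l') :
    ∃ σ : Equiv.Perm ℕ, ∀ k, l'.getD (σ k) 0 = l.getD k 0 := by
  induction h with
  | nil => exact ⟨1, fun k => rfl⟩
  | cons x _ ih =>
    obtain ⟨σ, hσ⟩ := ih
    refine ⟨liftP σ, fun k => ?_⟩
    rcases k with _ | k
    · rfl
    · show (x :: _).getD (σ k + 1) 0 = _
      rw [List.getD_cons_succ, List.getD_cons_succ, hσ]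
  | swap x y l =>
    refine ⟨Equiv.swap 0 1, fun k => ?_⟩
    rcases k with _ | _ | k
    · simp
    · simp
    · rw [Equiv.swap_apply_of_ne_of_ne (by omega) (by omega)]
      simp
  | trans _ _ ih1 ih2 =>
    obtain ⟨σ1, h1⟩ := ih1
    obtain ⟨σ2, h2⟩ := ih2
    exact ⟨σ1.trans σ2, fun k => by rw [Equiv.trans_apply, h2, h1]⟩

theorem eL_perm (l l' : List ℕ) (h : l.Perm l') :
    ∃ σ : Equiv.Perm ℕ, (eL l).mapDomain σ = eL l' := by
  obtain ⟨σ, hσ⟩ := perm_exists l l' h
  refine ⟨σ, ?_⟩
  ext k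
  obtain ⟨m, rfl⟩ := σ.surjective k
  rw [Finsupp.mapDomain_apply σ.injective, eL_apply, eL_apply, hσ]

theorem symF_of {n : ℕ} (S : Finset (Equiv.Perm (Fin n))) (h : IsSymmetric (Q S)) :
    SymF n S des := by
  intro l l' hl hs hp
  have hs' : l'.sum = n := by rw [← hp.sum_eq, hs]
  obtain ⟨σ, hσ⟩ := eL_perm l l' hp
  have h1 := h σ (eL l)
  rw [hσ] at h1
  obtain ⟨r, hr, hre⟩ := content_exists (n := n) (eL l) (by rw [eL_degree, hs])
  obtain ⟨r', hr', hre'⟩ := content_exists (n := n) (eL l') (by rw [eL_degree, hs'])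
  rw [Q_coeff S r hr _ hre, Q_coeff S r' hr' _ hre', asc_eL l hs r hr hre,
    asc_eL l' hs' r' hr' hre'] at h1
  have e : ∀ m : List ℕ, ({π ∈ S | des π ⊆ ps 0 m ∩ Icc 1 (n - 1)} : Finset _) =
      {π ∈ S | des π ⊆ ps 0 m} := by
    intro m
    apply filter_congr
    intro π _
    rw [subset_inter_iff]
    exact ⟨fun h => h.1, fun h => ⟨h, des_sub π⟩⟩
  rw [e, e] at h1
  exact_mod_cast h1.symm

theorem main {n : ℕ} (hn : 2 ≤ n) (S : Finset (Equiv.Perm (Fin n))) (hcard : #S = n - 1)
    (hid : (1 : Equiv.Perm (Fin n)) ∉ S) (hrev : Fin.revPerm ∉ S) (hsym : IsSymmetric (Q S)) :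
    ∃ μ : YoungDiagram, μ.card = n ∧ Q S = schur μ := by
  have hsf := symF_of S hsym
  have e : n - 1 + 1 = n := by omega
  have key := classify' (n - 1) (by omega) S des (by rw [e]; exact hsf) (fun π _ => des_sub π)
    (fun π hπ h => hid (des_empty π h ▸ hπ)) (fun π hπ h => hrev (des_full π h ▸ hπ)) hcard
  have htc : ∀ μ : YoungDiagram, μ.cells.card = n → μ.transpose.cells.card = n := by
    intro μ hμ
    have := Fintype.card_congr (swapE μ)
    rw [Fintype.card_coe, Fintype.card_coe] at this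
    omega
  rcases key.2 with h | h | ⟨hN, h | h⟩
  · exact ⟨hook n hn, hook_card n hn, Q_eq_schur S _ (hook_card n hn) _ h (unif_hook n hn)⟩
  · exact ⟨(hook n hn).transpose, htc _ (hook_card n hn),
      Q_eq_schur S _ (htc _ (hook_card n hn)) _ h (unif_tr (F1_sub (n - 1)) (unif_hook n hn))⟩
  · have hn6 : n = 6 := by omega
    subst hn6
    exact ⟨sq33, card_33, Q_eq_schur S _ card_33 _ h unif_33⟩
  · have hn6 : n = 6 := by omega
    subst hn6
    exact ⟨sq33.transpose, htc _ card_33, Q_eq_schur S _ (htc _ card_33) _ h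
      (unif_tr F33_sub unif_33)⟩

/-- Every symmetric set of `n - 1` permutations of `[n]` without monotone elements is
Schur-positive; its quasisymmetric function is even a single Schur function. -/
theorem result (n : ℕ) (hn : 2 ≤ n) (S : Finset (Equiv.Perm (Fin n))) (hcard : #S = n - 1)
    (hid : (1 : Equiv.Perm (Fin n)) ∉ S) (hrev : Fin.revPerm ∉ S) (hsym : IsSymmetric (Q S)) :
    SchurPositive n (Q S) ∧ ∃ μ : YoungDiagram, μ.card = n ∧ Q S = schur μ := by
  obtain ⟨μ, hμ, hQ⟩ := main hn S hcard hid hrev hsym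
  refine ⟨⟨Finsupp.single μ 1, ?_, ?_⟩, μ, hμ, hQ⟩
  · intro ν hν
    rw [Finsupp.support_single_ne_zero μ one_ne_zero, mem_singleton] at hν
    rw [hν, hμ]
  · rw [Finsupp.support_single_ne_zero μ one_ne_zero, sum_singleton, Finsupp.single_eq_same, hQ]
    simp

end Pool.Agent.Results.MP_8fe44f_co.MinimalSymmetric
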